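import Pool.Agent.H631R3.Str7

/-!
# The Hodge theorem for the strong de Rham Laplacian on the Hartogs triangle

The Laplacian `d_s d_s* + d_s* d_s`, where `d_s` is the strong maximal extension of the exterior
derivative on square integrable forms on the Hartogs triangle (graph closure of the exterior
derivative on forms smooth up to the boundary): for every degree the range is closed and the
harmonic forms represent the de Rham cohomology.
-/

namespace Pool.Agent.Results.MP_05a445_an.HodgeStrong

open Pool.Agent.H631R3

theorem result : HodgeTheorem (fun _ f g => StrongD f g) := hodge_strong

end Pool.Agent.Results.MP_05a445_an.HodgeStrong
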