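import Pool.Agent.H631R3.WeakGood

/-!
# The Hodge theorem for the de Rham Laplacian on the Hartogs triangle

`Δ = d d* + d* d` with `d` the weak maximal extension of the exterior derivative on square
integrable forms on the Hartogs triangle: for every degree the range is closed and the harmonic
forms represent the de Rham cohomology.
-/

namespace Pool.Agent.Results.MP_05a445_an.HodgeWeak

open Pool.Agent.H631R3

theorem result : HodgeTheorem (fun _ f g => WeakD f g) := goodComplex_weak.hodge

end Pool.Agent.Results.MP_05a445_an.HodgeWeak
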